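import Mathlib
import Pool.Agent.H88.Om2

open Pool.Agent.H88.Om Filter Topology

theorem Pool.Agent.Results.MP_68e822_an.No.result :
    (∃ (f : Cw Real.sqrt) (ε : ENNReal), 0 < ε ∧
      ∀ g : Cw Real.sqrt, edist g f < ε → dimA (graph g.1) < 2) ∧
    ¬ ∀ ω : ℝ → ℝ, ConcaveModulus ω → Tendsto (fun t => ω t / t) (𝓝[>] 0) atTop →
      {f : Cw ω | dimA (graph f.1) = 2} ∈ residual (Cw ω) :=
  ⟨⟨f0, ENNReal.ofReal (1 / 24), by simp, dimA_ball⟩, fun h =>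
    not_residual (fun g hg => (dimA_ball g hg).ne) (h _ sqrt_modulus sqrt_div)⟩
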